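import Mathlib

/-!
# Logarithmic cutoff functions (project TWB)
-/

set_option autoImplicit false

namespace Pool.Agent.W561.TWB

open MeasureTheory Set Filter Metric Topology

section
variable {E : Type} [NormedAddCommGroup E] [NormedSpace ℝ E] [FiniteDimensional ℝ E]

/-- bounded derivative of the basic bump -/
lemma bump_bound (f : ContDiffBump (0 : E)) : ∃ C : ℝ, 0 ≤ C ∧ ∀ x, ‖fderiv ℝ f x‖ ≤ C := by
  have h1 : Continuous (fderiv ℝ f) := (f.contDiff (n := 1)).continuous_fderiv (by norm_num)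
  have h2 : HasCompactSupport (fderiv ℝ f) := f.hasCompactSupport.fderiv ℝ
  obtain ⟨C, hC⟩ := h1.bounded_above_of_compact_support h2
  exact ⟨C, (norm_nonneg _).trans (hC 0), hC⟩

lemma cutoff (R0 ε : ℝ) (hR0 : 0 < R0) (hε : 0 < ε) : ∃ (R : ℝ) (χ : E → ℝ), R0 < R ∧
    ContDiff ℝ 1 χ ∧ HasCompactSupport χ ∧ (∀ p, 0 ≤ χ p) ∧ (∀ p, χ p ≤ 1) ∧
    (∀ p, ‖p‖ ≤ R0 → χ p = 1) ∧ (∀ p, R ≤ ‖p‖ → χ p = 0 ∧ fderiv ℝ χ p = 0) ∧
    ∀ p, ‖fderiv ℝ χ p‖ * ‖p‖ ≤ ε := by
  let f : ContDiffBump (0 : E) := ⟨11 / 10, 19 / 10, by norm_num, by norm_num⟩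
  have hfd : ContDiff ℝ 1 f := f.contDiff
  have hone : ∀ x : E, ‖x‖ ≤ 1 → f x = 1 ∧ fderiv ℝ f x = 0 := by
    intro x hx
    have h1 : f =ᶠ[𝓝 x] fun _ => (1 : ℝ) := by
      have : ball (0 : E) (11 / 10) ∈ 𝓝 x := isOpen_ball.mem_nhds (by
        rw [mem_ball_zero_iff]; linarith)
      filter_upwards [this] with y hy
      exact f.one_of_mem_closedBall (ball_subset_closedBall hy)
    refine ⟨h1.self_of_nhds, ?_⟩
    rw [h1.fderiv_eq]
    simp
  have hzero : ∀ x : E, 2 ≤ ‖x‖ → f x = 0 ∧ fderiv ℝ f x = 0 := by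
    intro x hx
    have h1 : f =ᶠ[𝓝 x] fun _ => (0 : ℝ) := by
      have : (closedBall (0 : E) (19 / 10))ᶜ ∈ 𝓝 x := isClosed_closedBall.isOpen_compl.mem_nhds (by
        rw [mem_compl_iff, mem_closedBall_zero_iff]; linarith)
      filter_upwards [this] with y hy
      rw [mem_compl_iff, mem_closedBall_zero_iff] at hy
      refine f.zero_of_le_dist ?_
      rw [dist_zero_right]
      exact (not_le.1 hy).le
    refine ⟨h1.self_of_nhds, ?_⟩
    rw [h1.fderiv_eq]
    simp
  obtain ⟨C, hC0, hC⟩ := bump_bound f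
  obtain ⟨L, hL⟩ := exists_nat_gt (2 * C / ε)
  have hLpos : (0 : ℝ) < L := lt_of_le_of_lt (by positivity) hL
  have hLpos' : 0 < L := by exact_mod_cast hLpos
  have hLε : 2 * C / L ≤ ε := by
    rw [div_le_iff₀ hLpos]
    rw [div_lt_iff₀ hε] at hL
    linarith [mul_comm (L : ℝ) ε]
  let s : ℕ → ℝ := fun k => 2 ^ k * R0
  have hs : ∀ k, 0 < s k := fun k => by positivity
  have hs1 : ∀ k, R0 ≤ s k := fun k => by
    have : (1 : ℝ) ≤ 2 ^ k := one_le_pow₀ (by norm_num)
    nlinarith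
  have hsL : ∀ k < L, 2 * s k ≤ 2 ^ L * R0 := by
    intro k hk
    have : (2 : ℝ) ^ (k + 1) ≤ 2 ^ L := pow_le_pow_right₀ (by norm_num) hk
    have e : 2 * s k = 2 ^ (k + 1) * R0 := by simp only [s]; ring
    rw [e]
    exact mul_le_mul_of_nonneg_right this hR0.le
  let χ : E → ℝ := fun p => (L : ℝ)⁻¹ * ∑ k ∈ Finset.range L, f ((s k)⁻¹ • p)
  have hder : ∀ p, fderiv ℝ χ p =
      (L : ℝ)⁻¹ • ∑ k ∈ Finset.range L, (s k)⁻¹ • fderiv ℝ f ((s k)⁻¹ • p) := by
    intro p
    have h1 : HasFDerivAt χ ((L : ℝ)⁻¹ • ∑ k ∈ Finset.range L,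
        (s k)⁻¹ • fderiv ℝ f ((s k)⁻¹ • p)) p := by
      refine HasFDerivAt.const_mul ?_ _
      refine HasFDerivAt.fun_sum fun k _ => ?_
      have h2 : HasFDerivAt f (fderiv ℝ f ((s k)⁻¹ • p)) ((s k)⁻¹ • p) :=
        (hfd.differentiable (by norm_num) _).hasFDerivAt
      have h3 : HasFDerivAt (fun p : E => (s k)⁻¹ • p) ((s k)⁻¹ • ContinuousLinearMap.id ℝ E) p :=
        (hasFDerivAt_id p).const_smul _
      have h4 := h2.comp p h3
      have h5 : (fderiv ℝ f ((s k)⁻¹ • p)).comp ((s k)⁻¹ • ContinuousLinearMap.id ℝ E) =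
          (s k)⁻¹ • fderiv ℝ f ((s k)⁻¹ • p) := by
        ext v
        simp
      rw [h5] at h4
      exact h4
    exact h1.fderiv
  refine ⟨2 ^ L * R0, χ, ?_, ?_, ?_, ?_, ?_, ?_, ?_, ?_⟩
  · have : (1 : ℝ) < 2 ^ L := one_lt_pow₀ (by norm_num) hLpos'.ne'
    nlinarith
  · refine contDiff_const.mul (ContDiff.sum fun k _ => ?_)
    exact hfd.comp (contDiff_const_smul _)
  · refine HasCompactSupport.of_support_subset_isCompact (isCompact_closedBall 0 (2 ^ L * R0)) ?_
    intro p hp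
    by_contra hcon
    rw [mem_closedBall_zero_iff, not_le] at hcon
    refine hp ?_
    change (L : ℝ)⁻¹ * ∑ k ∈ Finset.range L, f ((s k)⁻¹ • p) = 0
    rw [Finset.sum_eq_zero, mul_zero]
    intro k hk
    refine (hzero _ ?_).1
    rw [norm_smul, norm_inv, Real.norm_of_nonneg (hs k).le, ← div_eq_inv_mul,
      le_div_iff₀ (hs k)]
    have := hsL k (Finset.mem_range.1 hk)
    linarith
  · intro p
    exact mul_nonneg (by positivity) (Finset.sum_nonneg fun k _ => f.nonneg)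
  · intro p
    change (L : ℝ)⁻¹ * ∑ k ∈ Finset.range L, f ((s k)⁻¹ • p) ≤ 1
    have h1 : ∑ k ∈ Finset.range L, f ((s k)⁻¹ • p) ≤ ∑ k ∈ Finset.range L, (1 : ℝ) :=
      Finset.sum_le_sum fun k _ => f.le_one
    rw [Finset.sum_const, Finset.card_range, nsmul_eq_mul, mul_one] at h1
    rw [inv_mul_le_iff₀ hLpos, mul_one]
    exact h1
  · intro p hp
    change (L : ℝ)⁻¹ * ∑ k ∈ Finset.range L, f ((s k)⁻¹ • p) = 1
    have h1 : ∑ k ∈ Finset.range L, f ((s k)⁻¹ • p) = ∑ k ∈ Finset.range L, (1 : ℝ) := by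
      refine Finset.sum_congr rfl fun k _ => (hone _ ?_).1
      rw [norm_smul, norm_inv, Real.norm_of_nonneg (hs k).le, ← div_eq_inv_mul,
        div_le_iff₀ (hs k), one_mul]
      exact hp.trans (hs1 k)
    rw [h1, Finset.sum_const, Finset.card_range, nsmul_eq_mul, mul_one]
    exact inv_mul_cancel₀ hLpos.ne'
  · intro p hp
    have hz : ∀ k ∈ Finset.range L, f ((s k)⁻¹ • p) = 0 ∧ fderiv ℝ f ((s k)⁻¹ • p) = 0 := by
      intro k hk
      refine hzero _ ?_
      rw [norm_smul, norm_inv, Real.norm_of_nonneg (hs k).le, ← div_eq_inv_mul,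
        le_div_iff₀ (hs k)]
      exact (hsL k (Finset.mem_range.1 hk)).trans hp
    constructor
    · change (L : ℝ)⁻¹ * ∑ k ∈ Finset.range L, f ((s k)⁻¹ • p) = 0
      rw [Finset.sum_eq_zero fun k hk => (hz k hk).1, mul_zero]
    · rw [hder, Finset.sum_eq_zero fun k hk => by rw [(hz k hk).2, smul_zero], smul_zero]
  · intro p
    rw [hder]
    -- at most one term is non-zero
    have key : ‖∑ k ∈ Finset.range L, (s k)⁻¹ • fderiv ℝ f ((s k)⁻¹ • p)‖ * ‖p‖ ≤ 2 * C := by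
      by_cases hex : ∃ k ∈ Finset.range L, s k < ‖p‖ ∧ ‖p‖ < 2 * s k
      · obtain ⟨k0, hk0, h1, h2⟩ := hex
        rw [Finset.sum_eq_single_of_mem k0 hk0]
        · rw [norm_smul, norm_inv, Real.norm_of_nonneg (hs k0).le]
          have h3 := hC ((s k0)⁻¹ • p)
          have h4 : (s k0)⁻¹ * ‖p‖ ≤ 2 := by
            rw [← div_eq_inv_mul, div_le_iff₀ (hs k0)]; exact h2.le
          calc (s k0)⁻¹ * ‖fderiv ℝ f ((s k0)⁻¹ • p)‖ * ‖p‖ =
              ((s k0)⁻¹ * ‖p‖) * ‖fderiv ℝ f ((s k0)⁻¹ • p)‖ := by ring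
            _ ≤ 2 * C := mul_le_mul h4 h3 (norm_nonneg _) (by norm_num)
        · intro k hk hne
          have : fderiv ℝ f ((s k)⁻¹ • p) = 0 := by
            rcases lt_or_gt_of_ne hne with h | h
            · -- k < k0
              refine (hzero _ ?_).2
              rw [norm_smul, norm_inv, Real.norm_of_nonneg (hs k).le, ← div_eq_inv_mul,
                le_div_iff₀ (hs k)]
              have h5 : (2 : ℝ) ^ (k + 1) ≤ 2 ^ k0 := pow_le_pow_right₀ (by norm_num) h
              have h6 : 2 * s k = 2 ^ (k + 1) * R0 := by simp only [s]; ring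
              have h7 : 2 ^ (k + 1) * R0 ≤ s k0 := mul_le_mul_of_nonneg_right h5 hR0.le
              linarith
            · refine (hone _ ?_).2
              rw [norm_smul, norm_inv, Real.norm_of_nonneg (hs k).le, ← div_eq_inv_mul,
                div_le_iff₀ (hs k), one_mul]
              have h5 : (2 : ℝ) ^ (k0 + 1) ≤ 2 ^ k := pow_le_pow_right₀ (by norm_num) h
              have h6 : 2 * s k0 = 2 ^ (k0 + 1) * R0 := by simp only [s]; ring
              have h7 : 2 ^ (k0 + 1) * R0 ≤ s k := mul_le_mul_of_nonneg_right h5 hR0.le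
              linarith
          rw [this, smul_zero]
      · push Not at hex
        rw [Finset.sum_eq_zero, norm_zero, zero_mul]
        · positivity
        · intro k hk
          have : fderiv ℝ f ((s k)⁻¹ • p) = 0 := by
            rcases le_or_gt ‖p‖ (s k) with h | h
            · refine (hone _ ?_).2
              rw [norm_smul, norm_inv, Real.norm_of_nonneg (hs k).le, ← div_eq_inv_mul,
                div_le_iff₀ (hs k), one_mul]
              exact h
            · refine (hzero _ ?_).2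
              rw [norm_smul, norm_inv, Real.norm_of_nonneg (hs k).le, ← div_eq_inv_mul,
                le_div_iff₀ (hs k)]
              exact hex k hk h
          rw [this, smul_zero]
    rw [norm_smul, norm_inv, Real.norm_of_nonneg hLpos.le, mul_assoc]
    calc (L : ℝ)⁻¹ * (‖∑ k ∈ Finset.range L, (s k)⁻¹ • fderiv ℝ f ((s k)⁻¹ • p)‖ * ‖p‖) ≤
        (L : ℝ)⁻¹ * (2 * C) := mul_le_mul_of_nonneg_left key (by positivity)
      _ = 2 * C / L := by rw [div_eq_inv_mul]
      _ ≤ ε := hLε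

end

end Pool.Agent.W561.TWB
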