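import Pool.Agent.W734.TWB.Stms
import Pool.Agent.W561.TWB.Cutoff

/-!
# Dyson type lemma for triples (project TWB, part DY3)
-/

set_option autoImplicit false

noncomputable section

namespace Pool.Agent.W561.TWB

open MeasureTheory Set Filter Metric Topology Pool.Agent.W734.TWB
open scoped Pointwise

lemma g6_nonneg (φ : E3 × E3 → ℂ) (p : E3 × E3) : 0 ≤ g6 φ p :=
  Finset.sum_nonneg fun _ _ => add_nonneg (add_nonneg (sq_nonneg _) (sq_nonneg _)) (sq_nonneg _)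

lemma norm_e (k : Fin 3) : ‖(EuclideanSpace.single k (1 : ℝ) : E3)‖ = 1 := by
  simp

lemma norm_sq_add (a b : ℂ) (t : ℝ) (ht : 0 < t) :
    ‖a + b‖ ^ 2 ≤ (1 + t) * ‖a‖ ^ 2 + (1 + t⁻¹) * ‖b‖ ^ 2 := by
  have h1 : ‖a + b‖ ^ 2 ≤ (‖a‖ + ‖b‖) ^ 2 :=
    pow_le_pow_left₀ (norm_nonneg _) (norm_add_le a b) 2
  have h2 : 0 ≤ t⁻¹ * (t * ‖a‖ - ‖b‖) ^ 2 := mul_nonneg (inv_nonneg.2 ht.le) (sq_nonneg _)
  have h3 : t⁻¹ * (t * ‖a‖ - ‖b‖) ^ 2 = t * ‖a‖ ^ 2 - 2 * (‖a‖ * ‖b‖) + t⁻¹ * ‖b‖ ^ 2 := by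
    field_simp
    ring
  rw [h3] at h2
  nlinarith

section pointwise
variable (χ : E3 × E3 → ℝ) (G : E3 × E3 → ℂ) (c : ℂ)

/-- the trial function -/
def trial (p : E3 × E3) : ℂ := χ p • (1 - c⁻¹ * G p)

lemma one_sub (z : ℂ) (hc : c ≠ 0) : ‖1 - c⁻¹ * z‖ ^ 2 = ‖c⁻¹‖ ^ 2 * ‖z - c‖ ^ 2 := by
  have : 1 - c⁻¹ * z = - (c⁻¹ * (z - c)) := by
    field_simp
    ring
  rw [this, norm_neg, norm_mul, mul_pow]

lemma fderiv_trial (hχ : ContDiff ℝ 1 χ) (hG : ContDiff ℝ 1 G) (p e : E3 × E3) :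
    fderiv ℝ (trial χ G c) p e =
      χ p • (-(c⁻¹ * fderiv ℝ G p e)) + (fderiv ℝ χ p e) • (1 - c⁻¹ * G p) := by
  have h1 : HasFDerivAt χ (fderiv ℝ χ p) p := (hχ.differentiable (by norm_num) p).hasFDerivAt
  have h2 : HasFDerivAt G (fderiv ℝ G p) p := (hG.differentiable (by norm_num) p).hasFDerivAt
  have h3 := (h2.const_mul c⁻¹).const_sub 1
  have h4 := h1.smul h3
  have h5 : HasFDerivAt (trial χ G c) _ p := h4
  rw [h5.fderiv]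
  simp

lemma dir_bound (hc : c ≠ 0) (hχ : ContDiff ℝ 1 χ) (hG : ContDiff ℝ 1 G) (h0 : ∀ p, 0 ≤ χ p)
    (h1 : ∀ p, χ p ≤ 1) (t : ℝ) (ht : 0 < t) (p e : E3 × E3) (he : ‖e‖ ≤ 1) :
    ‖fderiv ℝ (trial χ G c) p e‖ ^ 2 ≤ (1 + t) * (‖c⁻¹‖ ^ 2 * ‖fderiv ℝ G p e‖ ^ 2) +
      (1 + t⁻¹) * (‖c⁻¹‖ ^ 2 * (‖fderiv ℝ χ p‖ ^ 2 * ‖G p - c‖ ^ 2)) := by
  rw [fderiv_trial χ G c hχ hG]
  refine (norm_sq_add _ _ t ht).trans ?_
  have e1 : ‖χ p • (-(c⁻¹ * fderiv ℝ G p e))‖ ^ 2 ≤ ‖c⁻¹‖ ^ 2 * ‖fderiv ℝ G p e‖ ^ 2 := by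
    rw [norm_smul, norm_neg, norm_mul, mul_pow, mul_pow, Real.norm_of_nonneg (h0 p)]
    have : χ p ^ 2 ≤ 1 := pow_le_one₀ (h0 p) (h1 p)
    nlinarith [mul_nonneg (sq_nonneg ‖c⁻¹‖) (sq_nonneg ‖fderiv ℝ G p e‖)]
  have e2 : ‖(fderiv ℝ χ p e) • (1 - c⁻¹ * G p)‖ ^ 2 ≤
      ‖c⁻¹‖ ^ 2 * (‖fderiv ℝ χ p‖ ^ 2 * ‖G p - c‖ ^ 2) := by
    rw [norm_smul, mul_pow, one_sub c _ hc]
    have h2 : ‖fderiv ℝ χ p e‖ ≤ ‖fderiv ℝ χ p‖ :=
      (ContinuousLinearMap.le_opNorm _ _).trans (mul_le_of_le_one_right (norm_nonneg _) he)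
    have h3 : ‖fderiv ℝ χ p e‖ ^ 2 ≤ ‖fderiv ℝ χ p‖ ^ 2 :=
      pow_le_pow_left₀ (norm_nonneg _) h2 2
    have h4 : 0 ≤ ‖c⁻¹‖ ^ 2 * ‖G p - c‖ ^ 2 := by positivity
    calc _ ≤ ‖fderiv ℝ χ p‖ ^ 2 * (‖c⁻¹‖ ^ 2 * ‖G p - c‖ ^ 2) :=
          mul_le_mul_of_nonneg_right h3 h4
      _ = _ := by ring
  have ht' : 0 ≤ 1 + t⁻¹ := by positivity
  exact add_le_add (mul_le_mul_of_nonneg_left e1 (by linarith))
    (mul_le_mul_of_nonneg_left e2 ht')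

lemma g6_bound (hc : c ≠ 0) (hχ : ContDiff ℝ 1 χ) (hG : ContDiff ℝ 1 G) (h0 : ∀ p, 0 ≤ χ p)
    (h1 : ∀ p, χ p ≤ 1) (t : ℝ) (ht : 0 < t) (p : E3 × E3) :
    g6 (trial χ G c) p ≤ (1 + t) * (‖c⁻¹‖ ^ 2 * g6 G p) +
      9 * ((1 + t⁻¹) * (‖c⁻¹‖ ^ 2 * (‖fderiv ℝ χ p‖ ^ 2 * ‖G p - c‖ ^ 2))) := by
  unfold g6
  have hk : ∀ k : Fin 3, ‖fderiv ℝ (trial χ G c) p (EuclideanSpace.single k (1 : ℝ), 0)‖ ^ 2
      + ‖fderiv ℝ (trial χ G c) p (0, EuclideanSpace.single k (1 : ℝ))‖ ^ 2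
      + ‖fderiv ℝ (trial χ G c) p (EuclideanSpace.single k (1 : ℝ),
          EuclideanSpace.single k (1 : ℝ))‖ ^ 2 ≤
      (1 + t) * (‖c⁻¹‖ ^ 2 * (‖fderiv ℝ G p (EuclideanSpace.single k (1 : ℝ), 0)‖ ^ 2
      + ‖fderiv ℝ G p (0, EuclideanSpace.single k (1 : ℝ))‖ ^ 2
      + ‖fderiv ℝ G p (EuclideanSpace.single k (1 : ℝ), EuclideanSpace.single k (1 : ℝ))‖ ^ 2))
      + 3 * ((1 + t⁻¹) * (‖c⁻¹‖ ^ 2 * (‖fderiv ℝ χ p‖ ^ 2 * ‖G p - c‖ ^ 2))) := by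
    intro k
    have a1 := dir_bound χ G c hc hχ hG h0 h1 t ht p (EuclideanSpace.single k (1 : ℝ), 0)
      (by rw [Prod.norm_mk]; simp)
    have a2 := dir_bound χ G c hc hχ hG h0 h1 t ht p (0, EuclideanSpace.single k (1 : ℝ))
      (by rw [Prod.norm_mk]; simp)
    have a3 := dir_bound χ G c hc hχ hG h0 h1 t ht p
      (EuclideanSpace.single k (1 : ℝ), EuclideanSpace.single k (1 : ℝ))
      (by rw [Prod.norm_mk]; simp)
    linarith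
  calc _ ≤ ∑ k : Fin 3, ((1 + t) * (‖c⁻¹‖ ^ 2 *
      (‖fderiv ℝ G p (EuclideanSpace.single k (1 : ℝ), 0)‖ ^ 2
      + ‖fderiv ℝ G p (0, EuclideanSpace.single k (1 : ℝ))‖ ^ 2
      + ‖fderiv ℝ G p (EuclideanSpace.single k (1 : ℝ), EuclideanSpace.single k (1 : ℝ))‖ ^ 2))
      + 3 * ((1 + t⁻¹) * (‖c⁻¹‖ ^ 2 * (‖fderiv ℝ χ p‖ ^ 2 * ‖G p - c‖ ^ 2)))) :=
        Finset.sum_le_sum fun k _ => hk k
    _ = _ := by
      rw [Finset.sum_add_distrib, ← Finset.mul_sum, ← Finset.mul_sum, Finset.sum_const,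
        Finset.card_univ, Fintype.card_fin, nsmul_eq_mul]
      push_cast
      ring

end pointwise

lemma cont_g6 (G : E3 × E3 → ℂ) (hG : ContDiff ℝ 1 G) : Continuous (g6 G) := by
  have h1 : Continuous (fderiv ℝ G) := hG.continuous_fderiv (by norm_num)
  have h2 : ∀ v : E3 × E3, Continuous fun p => fderiv ℝ G p v := fun v =>
    h1.clm_apply continuous_const
  unfold g6
  exact continuous_finsetSum _ fun k _ =>
    (((h2 _).norm.pow 2).add ((h2 _).norm.pow 2)).add ((h2 _).norm.pow 2)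

lemma ae_fst_ne : ∀ᵐ p : E3 × E3, p.1 ≠ 0 := by
  have h1 : ∀ᵐ x : E3, x ≠ 0 := by
    rw [ae_iff]
    have : {a : E3 | ¬ a ≠ 0} = {0} := by ext; simp
    rw [this]
    exact measure_singleton 0
  exact Measure.quasiMeasurePreserving_fst.ae h1

lemma int_on1 (V : E3 × E3 → ℝ) (hV : Measurable V) (M : ℝ) (h0 : ∀ p, 0 ≤ V p)
    (hM : ∀ p, V p ≤ M) (G : E3 × E3 → ℂ) (hG : ContDiff ℝ 1 G) (R : ℝ) :
    IntegrableOn (fun p => g6 G p + V p * ‖G p‖ ^ 2) (ball (0 : E3 × E3) R) := by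
  have h1 : IntegrableOn (g6 G) (ball (0 : E3 × E3) R) :=
    ((cont_g6 G hG).continuousOn.integrableOn_compact (isCompact_closedBall 0 R)).mono_set
      ball_subset_closedBall
  have h2 : IntegrableOn (fun p => ‖G p‖ ^ 2) (ball (0 : E3 × E3) R) :=
    ((hG.continuous.norm.pow 2).continuousOn.integrableOn_compact
      (isCompact_closedBall 0 R)).mono_set ball_subset_closedBall
  have h3 : IntegrableOn (fun p => V p * ‖G p‖ ^ 2) (ball (0 : E3 × E3) R) :=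
    Integrable.bdd_mul (c := M) h2 hV.aestronglyMeasurable
      (Filter.Eventually.of_forall fun p => by
        rw [Real.norm_of_nonneg (h0 p)]; exact hM p)
  exact h1.add h3

lemma int_on2 (hI : S_INV) (G : E3 × E3 → ℂ) (hG : ContDiff ℝ 1 G) (c : ℂ) (R : ℝ) :
    IntegrableOn (fun p => ‖G p - c‖ ^ 2 / ‖p.1‖ ^ 2) (ball (0 : E3 × E3) R) := by
  have hcont : Continuous fun p => ‖G p - c‖ ^ 2 := (hG.continuous.sub continuous_const).norm.pow 2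
  obtain ⟨C, hC⟩ := (isCompact_closedBall (0 : E3 × E3) R).exists_bound_of_continuousOn
    hcont.continuousOn
  have h1 := hI.2 R
  have h2 : IntegrableOn (fun p : E3 × E3 => ‖G p - c‖ ^ 2 * (‖p.1‖ ^ 2)⁻¹)
      (ball (0 : E3 × E3) R) :=
    Integrable.bdd_mul (c := C) h1 hcont.aestronglyMeasurable (by
      refine (ae_restrict_iff' measurableSet_ball).2 (Filter.Eventually.of_forall fun p hp => ?_)
      exact hC p (ball_subset_closedBall hp))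
  simpa only [div_eq_mul_inv] using h2

lemma base (hB : S_B2C) (hI : S_INV) (V : E3 × E3 → ℝ) (hV : AdmV V) (δ : ℝ) (hδ : 0 < δ)
    (hδ1 : δ < 1) : ∃ R : ℝ, 0 < R ∧ ∀ G : E3 × E3 → ℂ, ContDiff ℝ 1 G → ∀ c : ℂ,
    (1 - δ) * b2 V * ‖c‖ ^ 2 ≤
      (∫ p in ball (0 : E3 × E3) R, (g6 G p + V p * ‖G p‖ ^ 2))
      + δ * ∫ p in ball (0 : E3 × E3) R, ‖G p - c‖ ^ 2 / ‖p.1‖ ^ 2 := by
  obtain ⟨R0, hR0, hsub⟩ := hV.supp.isCompact.isBounded.subset_closedBall_lt 0 0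
  obtain ⟨M, hM⟩ := hV.bdd
  obtain ⟨R, χ, hR, hχ, hχs, hχ0, hχ1, hχone, hχz, hχd⟩ :=
    cutoff (E := E3 × E3) R0 (δ / 6) hR0 (by positivity)
  refine ⟨R, hR0.trans hR, fun G hG c => ?_⟩
  set A := ∫ p in ball (0 : E3 × E3) R, (g6 G p + V p * ‖G p‖ ^ 2) with hA
  set B := ∫ p in ball (0 : E3 × E3) R, ‖G p - c‖ ^ 2 / ‖p.1‖ ^ 2 with hBd
  have hA0 : 0 ≤ A := integral_nonneg fun p =>
    add_nonneg (g6_nonneg G p) (mul_nonneg (hV.nonneg p) (sq_nonneg _))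
  have hB0 : 0 ≤ B := integral_nonneg fun p => div_nonneg (sq_nonneg _) (sq_nonneg _)
  by_cases hc : c = 0
  · rw [hc, norm_zero]
    have : (1 - δ) * b2 V * (0 : ℝ) ^ 2 = 0 := by ring
    rw [this]
    exact add_nonneg hA0 (mul_nonneg hδ.le hB0)
  have hcn : 0 < ‖c‖ := norm_pos_iff.2 hc
  have hVz : ∀ p, R0 < ‖p‖ → V p = 0 := by
    intro p hp
    by_contra hne
    have h1 := hsub (subset_tsupport _ (Function.mem_support.2 hne))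
    rw [mem_closedBall_zero_iff] at h1
    linarith
  have hφd : ContDiff ℝ 1 (trial χ G c) :=
    hχ.smul (contDiff_const.sub (contDiff_const.mul hG))
  have hφs : HasCompactSupport (trial χ G c) :=
    HasCompactSupport.smul_right (f := χ) (f' := fun p => 1 - c⁻¹ * G p) hχs
  have hb := hB V hV (trial χ G c) hφd hφs
  set κ := ‖c⁻¹‖ ^ 2 with hκ
  have hκ0 : 0 ≤ κ := sq_nonneg _
  have hκc : κ * ‖c‖ ^ 2 = 1 := by
    rw [hκ, norm_inv, ← mul_pow, inv_mul_cancel₀ hcn.ne', one_pow]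
  let F : E3 × E3 → ℝ := fun p => (1 + δ) * κ * (g6 G p + V p * ‖G p‖ ^ 2) +
    δ * κ * (‖G p - c‖ ^ 2 / ‖p.1‖ ^ 2)
  have hF1 := int_on1 V hV.meas M hV.nonneg hM G hG R
  have hF2 := int_on2 hI G hG c R
  have hFint : IntegrableOn F (ball (0 : E3 × E3) R) :=
    (hF1.const_mul _).add (hF2.const_mul _)
  have hFI : ∫ p in ball (0 : E3 × E3) R, F p = (1 + δ) * κ * A + δ * κ * B := by
    rw [hA, hBd, ← integral_const_mul, ← integral_const_mul]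
    exact integral_add (hF1.const_mul _) (hF2.const_mul _)
  have hpt : ∀ᵐ p : E3 × E3, g6 (trial χ G c) p + V p * ‖1 - trial χ G c p‖ ^ 2 ≤
      (ball (0 : E3 × E3) R).indicator F p := by
    filter_upwards [ae_fst_ne] with p hp
    by_cases hpR : p ∈ ball (0 : E3 × E3) R
    · rw [indicator_of_mem hpR]
      have h1 := g6_bound χ G c hc hχ hG hχ0 hχ1 δ hδ p
      have h2 : V p * ‖1 - trial χ G c p‖ ^ 2 = κ * (V p * ‖G p‖ ^ 2) := by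
        by_cases hpR0 : R0 < ‖p‖
        · rw [hVz p hpR0]; ring
        · rw [trial, hχone p (not_lt.1 hpR0), one_smul, sub_sub_cancel, norm_mul, mul_pow]
          ring
      have hp1 : 0 < ‖p.1‖ := norm_pos_iff.2 hp
      have h3 : ‖fderiv ℝ χ p‖ ^ 2 ≤ (δ / 6) ^ 2 / ‖p.1‖ ^ 2 := by
        rw [le_div_iff₀ (by positivity), ← mul_pow]
        refine pow_le_pow_left₀ (by positivity) ?_ 2
        exact (mul_le_mul_of_nonneg_left (norm_fst_le p) (norm_nonneg _)).trans (hχd p)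
      have h4 : 9 * ((1 + δ⁻¹) * (κ * (‖fderiv ℝ χ p‖ ^ 2 * ‖G p - c‖ ^ 2))) ≤
          δ * κ * (‖G p - c‖ ^ 2 / ‖p.1‖ ^ 2) := by
        have h5 : 0 ≤ κ * ‖G p - c‖ ^ 2 := by positivity
        have h6 : 9 * (1 + δ⁻¹) * (δ / 6) ^ 2 ≤ δ := by
          have : 9 * (1 + δ⁻¹) * (δ / 6) ^ 2 = (δ ^ 2 + δ) / 4 := by
            field_simp
            ring
          rw [this]
          nlinarith
        have h7 : 0 ≤ 9 * (1 + δ⁻¹) := by positivity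
        calc 9 * ((1 + δ⁻¹) * (κ * (‖fderiv ℝ χ p‖ ^ 2 * ‖G p - c‖ ^ 2))) =
            (9 * (1 + δ⁻¹)) * (‖fderiv ℝ χ p‖ ^ 2 * (κ * ‖G p - c‖ ^ 2)) := by ring
          _ ≤ (9 * (1 + δ⁻¹)) * (((δ / 6) ^ 2 / ‖p.1‖ ^ 2) * (κ * ‖G p - c‖ ^ 2)) :=
            mul_le_mul_of_nonneg_left (mul_le_mul_of_nonneg_right h3 h5) h7
          _ = (9 * (1 + δ⁻¹) * (δ / 6) ^ 2) * (κ * (‖G p - c‖ ^ 2 / ‖p.1‖ ^ 2)) := by ring
          _ ≤ δ * (κ * (‖G p - c‖ ^ 2 / ‖p.1‖ ^ 2)) :=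
            mul_le_mul_of_nonneg_right h6 (by positivity)
          _ = _ := by ring
      have h8 : κ * (V p * ‖G p‖ ^ 2) ≤ (1 + δ) * κ * (V p * ‖G p‖ ^ 2) := by
        have : 0 ≤ κ * (V p * ‖G p‖ ^ 2) :=
          mul_nonneg hκ0 (mul_nonneg (hV.nonneg p) (sq_nonneg _))
        nlinarith
      change _ ≤ (1 + δ) * κ * (g6 G p + V p * ‖G p‖ ^ 2) + δ * κ * (‖G p - c‖ ^ 2 / ‖p.1‖ ^ 2)
      rw [h2]
      linarith
    · rw [indicator_of_notMem hpR]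
      rw [mem_ball_zero_iff, not_lt] at hpR
      obtain ⟨hz1, hz2⟩ := hχz p hpR
      have h1 : g6 (trial χ G c) p = 0 := by
        unfold g6
        refine Finset.sum_eq_zero fun k _ => ?_
        rw [fderiv_trial χ G c hχ hG, fderiv_trial χ G c hχ hG, fderiv_trial χ G c hχ hG,
          hz1, hz2]
        simp
      rw [h1, hVz p (lt_of_lt_of_le hR hpR)]
      simp
  have hle : ∫ p, (g6 (trial χ G c) p + V p * ‖1 - trial χ G c p‖ ^ 2) ≤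
      (1 + δ) * κ * A + δ * κ * B := by
    rw [← hFI, ← integral_indicator measurableSet_ball]
    refine integral_mono_of_nonneg (Filter.Eventually.of_forall fun p => ?_)
      ((integrable_indicator_iff measurableSet_ball).2 hFint) hpt
    exact add_nonneg (g6_nonneg _ p) (mul_nonneg (hV.nonneg p) (sq_nonneg _))
  have hfin : b2 V ≤ (1 + δ) * κ * A + δ * κ * B := hb.trans hle
  have h9 : b2 V * ‖c‖ ^ 2 ≤ (1 + δ) * A + δ * B := by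
    have := mul_le_mul_of_nonneg_right hfin (sq_nonneg ‖c‖)
    have e : ((1 + δ) * κ * A + δ * κ * B) * ‖c‖ ^ 2 =
        (κ * ‖c‖ ^ 2) * ((1 + δ) * A + δ * B) := by ring
    rw [e, hκc, one_mul] at this
    exact this
  have h10 : (1 - δ) * (b2 V * ‖c‖ ^ 2) ≤ (1 - δ) * ((1 + δ) * A + δ * B) :=
    mul_le_mul_of_nonneg_left h9 (by linarith)
  have h11 : (1 - δ) * ((1 + δ) * A + δ * B) ≤ A + δ * B := by
    have : (1 - δ) * ((1 + δ) * A + δ * B) = A + δ * B - (δ ^ 2 * A + δ ^ 2 * B) := by ring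
    rw [this]
    have : 0 ≤ δ ^ 2 * A + δ ^ 2 * B := by positivity
    linarith
  linarith

theorem dy3 : S_B2C → S_INV → S_DY3 := by
  intro hB hI V hV δ hδ hδ1
  obtain ⟨R, hR, hbase⟩ := base hB hI V hV δ hδ hδ1
  refine ⟨R, hR, fun r hr G hG c => ?_⟩
  have hH : ContDiff ℝ 1 (fun q : E3 × E3 => G (r⁻¹ • q)) :=
    hG.comp (contDiff_const_smul _)
  have h1 := hbase (fun q => G (r⁻¹ • q)) hH c
  -- scaling
  have : (volume : Measure (E3 × E3)).IsAddHaarMeasure :=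
    inferInstanceAs (Measure.IsAddHaarMeasure ((volume : Measure E3).prod (volume : Measure E3)))
  have hfin : Module.finrank ℝ (E3 × E3) = 6 := by
    rw [Module.finrank_prod, finrank_euclideanSpace_fin]
  have hball : r • ball (0 : E3 × E3) (R / r) = ball 0 R := by
    rw [_root_.smul_ball hr.ne', smul_zero, Real.norm_of_nonneg hr.le, mul_div_cancel₀ _ hr.ne']
  have hscale : ∀ f : E3 × E3 → ℝ, ∫ q in ball (0 : E3 × E3) R, f q =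
      r ^ 6 * ∫ p in ball (0 : E3 × E3) (R / r), f (r • p) := by
    intro f
    have := Measure.setIntegral_comp_smul_of_pos (μ := (volume : Measure (E3 × E3))) f
      (ball (0 : E3 × E3) (R / r)) hr
    rw [this, hfin, hball, smul_eq_mul, ← mul_assoc, mul_inv_cancel₀ (pow_pos hr 6).ne', one_mul]
  have hg : ∀ p : E3 × E3, g6 (fun q => G (r⁻¹ • q)) (r • p) = (r ^ 2)⁻¹ * g6 G p := by
    intro p
    have hd : ∀ e : E3 × E3, fderiv ℝ (fun q => G (r⁻¹ • q)) (r • p) e =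
        r⁻¹ • fderiv ℝ G p e := by
      intro e
      have h2 : HasFDerivAt G (fderiv ℝ G p) (r⁻¹ • (r • p)) := by
        rw [smul_smul, inv_mul_cancel₀ hr.ne', one_smul]
        exact (hG.differentiable (by norm_num) p).hasFDerivAt
      have h3 : HasFDerivAt (fun q : E3 × E3 => r⁻¹ • q)
          (r⁻¹ • ContinuousLinearMap.id ℝ (E3 × E3)) (r • p) :=
        (r⁻¹ • ContinuousLinearMap.id ℝ (E3 × E3)).hasFDerivAt
      have h4 : HasFDerivAt (fun q => G (r⁻¹ • q)) _ (r • p) := h2.comp (r • p) h3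
      rw [h4.fderiv]
      simp
    unfold g6
    rw [Finset.mul_sum]
    refine Finset.sum_congr rfl fun k _ => ?_
    rw [hd, hd, hd, norm_smul, norm_smul, norm_smul, norm_inv, Real.norm_of_nonneg hr.le,
      mul_pow, mul_pow, mul_pow, inv_pow]
    ring
  have hr2 : (r ^ 2) ≠ 0 := (pow_pos hr 2).ne'
  rw [hscale, hscale] at h1
  have e1 : ∫ p in ball (0 : E3 × E3) (R / r), (g6 (fun q => G (r⁻¹ • q)) (r • p) +
      V (r • p) * ‖G (r⁻¹ • (r • p))‖ ^ 2) =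
      (r ^ 2)⁻¹ * ∫ p in ball (0 : E3 × E3) (R / r),
        (g6 G p + r ^ 2 * V (r • p) * ‖G p‖ ^ 2) := by
    rw [← integral_const_mul]
    refine setIntegral_congr_fun measurableSet_ball fun p _ => ?_
    change g6 (fun q => G (r⁻¹ • q)) (r • p) + V (r • p) * ‖G (r⁻¹ • (r • p))‖ ^ 2 =
      (r ^ 2)⁻¹ * (g6 G p + r ^ 2 * V (r • p) * ‖G p‖ ^ 2)
    rw [hg, smul_smul, inv_mul_cancel₀ hr.ne', one_smul]
    field_simp
  have e2 : ∫ p in ball (0 : E3 × E3) (R / r), ‖G (r⁻¹ • (r • p)) - c‖ ^ 2 / ‖(r • p).1‖ ^ 2 =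
      (r ^ 2)⁻¹ * ∫ p in ball (0 : E3 × E3) (R / r), ‖G p - c‖ ^ 2 / ‖p.1‖ ^ 2 := by
    rw [← integral_const_mul]
    refine setIntegral_congr_fun measurableSet_ball fun p _ => ?_
    change ‖G (r⁻¹ • (r • p)) - c‖ ^ 2 / ‖(r • p).1‖ ^ 2 =
      (r ^ 2)⁻¹ * (‖G p - c‖ ^ 2 / ‖p.1‖ ^ 2)
    rw [smul_smul, inv_mul_cancel₀ hr.ne', one_smul, Prod.smul_fst, norm_smul,
      Real.norm_of_nonneg hr.le, mul_pow]
    rw [div_eq_mul_inv, mul_inv, div_eq_mul_inv]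
    ring
  rw [e1, e2] at h1
  have hr4 : 0 < r ^ 4 := pow_pos hr 4
  have e3 : (1 - δ) * (b2 V / r ^ 4) * ‖c‖ ^ 2 = ((1 - δ) * b2 V * ‖c‖ ^ 2) / r ^ 4 := by ring
  rw [e3, div_le_iff₀ hr4]
  refine h1.trans (le_of_eq ?_)
  field_simp

end Pool.Agent.W561.TWB
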